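import Pool.Agent.R371.DD.Anal3

/-!
# MP_452684_co, Q1: alternation of single double-descent counts

For every positive integer `n` and every `i` with `2 ≤ i < ⌈n/2⌉` the counts `dd({i};n)`
alternate: `dd({i};n) > dd({i+1};n)` for `i` even and `dd({i};n) < dd({i+1};n)` for `i` odd.
-/

namespace Pool.Agent.Results.MP_452684_co.Alternation

/-- The `j`-th entry `w_j` (places and values counted from `1`) of the one-line notation of a
permutation of `[n]`, modelled as a permutation of `Fin n`; it is `0` for `j` out of range. -/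
def entry {n : ℕ} (w : Equiv.Perm (Fin n)) (j : ℕ) : ℕ :=
  if h : 1 ≤ j ∧ j ≤ n then (w ⟨j - 1, by omega⟩ : ℕ) + 1 else 0

/-- The set of double descents: the `i` with `2 ≤ i ≤ n - 1` and `w_{i-1} > w_i > w_{i+1}`. -/
def DDes {n : ℕ} (w : Equiv.Perm (Fin n)) : Finset ℕ :=
  (Finset.Icc 2 (n - 1)).filter fun i =>
    entry w (i - 1) > entry w i ∧ entry w i > entry w (i + 1)

/-- `dd(I;n)`: the number of permutations of `[n]` whose set of double descents is `I`. -/
def dd (I : Finset ℕ) (n : ℕ) : ℕ :=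
  (Finset.univ.filter fun w : Equiv.Perm (Fin n) => DDes w = I).card

/-- The example of the problem file. -/
theorem example_value : dd {2} 4 = 3 := by decide +kernel

open R371DD in
theorem entry_gt {n : ℕ} (w : Equiv.Perm (Fin n)) (t : ℕ) (h : t + 1 < n) :
    entry w (t + 1) > entry w (t + 2) ↔ dsc w t := by
  unfold entry dsc
  rw [dif_pos ⟨by omega, by omega⟩, dif_pos ⟨by omega, by omega⟩]
  constructor
  · intro h1
    refine ⟨h, ?_⟩
    rw [Fin.lt_def]
    have e1 : (⟨t + 2 - 1, by omega⟩ : Fin n) = ⟨t + 1, h⟩ := by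
      ext; simp
    have e2 : (⟨t + 1 - 1, by omega⟩ : Fin n) = ⟨t, by omega⟩ := by
      ext; simp
    rw [e1, e2] at h1
    omega
  · rintro ⟨_, h1⟩
    rw [Fin.lt_def] at h1
    have e1 : (⟨t + 2 - 1, by omega⟩ : Fin n) = ⟨t + 1, h⟩ := by
      ext; simp
    have e2 : (⟨t + 1 - 1, by omega⟩ : Fin n) = ⟨t, by omega⟩ := by
      ext; simp
    rw [e1, e2]
    omega

open R371DD in
theorem mem_DDes {n : ℕ} (w : Equiv.Perm (Fin n)) (t : ℕ) :
    t + 2 ∈ DDes w ↔ t + 2 < n ∧ dsc w t ∧ dsc w (t + 1) := by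
  unfold DDes
  rw [Finset.mem_filter, Finset.mem_Icc]
  have e1 : t + 2 - 1 = t + 1 := by omega
  rw [e1]
  constructor
  · rintro ⟨⟨_, h1⟩, h2, h3⟩
    have hn : t + 2 < n := by omega
    exact ⟨hn, (entry_gt w t (by omega)).mp h2, (entry_gt w (t + 1) (by omega)).mp h3⟩
  · rintro ⟨hn, h2, h3⟩
    exact ⟨⟨by omega, by omega⟩, (entry_gt w t (by omega)).mpr h2,
      (entry_gt w (t + 1) (by omega)).mpr h3⟩

open R371DD in
theorem DDes_eq_iff {l r : ℕ} (w : Equiv.Perm (Fin (l + 3 + r))) :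
    DDes w = {l + 2} ↔ SD l r (dsc w) := by
  constructor
  · intro h
    have h1 : l + 2 ∈ DDes w := by rw [h]; exact Finset.mem_singleton_self _
    rw [mem_DDes] at h1
    refine ⟨h1.2.1, h1.2.2, fun t ht htl hd => htl ?_⟩
    have h2 : t + 2 ∈ DDes w := (mem_DDes w t).mpr ⟨ht, hd.1, hd.2⟩
    rw [h, Finset.mem_singleton] at h2
    omega
  · rintro ⟨h1, h2, h3⟩
    ext x
    rw [Finset.mem_singleton]
    constructor
    · intro hx
      have hx2 : 2 ≤ x := by
        unfold DDes at hx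
        rw [Finset.mem_filter, Finset.mem_Icc] at hx
        exact hx.1.1
      obtain ⟨t, rfl⟩ : ∃ t, x = t + 2 := ⟨x - 2, by omega⟩
      rw [mem_DDes] at hx
      by_contra hne
      exact h3 t (by omega) (by omega) hx.2
    · rintro rfl
      exact (mem_DDes w l).mpr ⟨by omega, h1, h2⟩

open R371DD in
theorem dd_eq (l r : ℕ) : (dd {l + 2} (l + 3 + r) : ℝ) =
    ((l + 3 + r).factorial : ℝ) * AA l r := by
  classical
  unfold dd AA ex
  rw [mul_div_cancel₀ _ (by positivity : ((l + 3 + r).factorial : ℝ) ≠ 0),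
    Finset.card_filter, Nat.cast_sum]
  refine Finset.sum_congr rfl fun w _ => ?_
  show _ = ind (SD l r (dsc w))
  by_cases h : DDes w = {l + 2}
  · rw [if_pos h, ind_true ((DDes_eq_iff w).mp h)]
    norm_num
  · rw [if_neg h, ind_false (fun h' => h ((DDes_eq_iff w).mpr h'))]
    norm_num

open R371DD in
theorem dd_sub (i j : ℕ) : (dd {i + 2} (i + j + 4) : ℝ) - dd {i + 3} (i + j + 4) =
    ((i + j + 4).factorial : ℝ) * del qr (i + 2) (j + 2) := by
  have h1 := dd_eq i (j + 1)
  have h2 := dd_eq (i + 1) j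
  have e1 : i + 3 + (j + 1) = i + j + 4 := by omega
  have e2 : i + 1 + 3 + j = i + j + 4 := by omega
  have e3 : i + 1 + 2 = i + 3 := by omega
  rw [e1] at h1
  rw [e2, e3] at h2
  rw [h1, h2, ← mul_sub, AA_sub qr qr_rec qr_zero qr_one]

/-- Q1 in full: the counts `dd({i};n)` alternately decrease and increase along
`i = 2, 3, …, ⌈n/2⌉`. -/
theorem result : ∀ n : ℕ, 0 < n → ∀ i : ℕ, 2 ≤ i → (i : ℤ) < ⌈(n : ℚ) / 2⌉ →
    (Even i → dd {i} n > dd {i + 1} n) ∧ (Odd i → dd {i} n < dd {i + 1} n) := by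
  intro n _ i hi hin
  rw [Int.lt_ceil] at hin
  have h2 : 2 * i < n := by
    have h3 : (2 : ℚ) * i < n := by
      push_cast at hin
      linarith
    exact_mod_cast h3
  obtain ⟨k, rfl⟩ : ∃ k, i = k + 2 := ⟨i - 2, by omega⟩
  obtain ⟨j, rfl⟩ : ∃ j, n = k + j + 4 := ⟨n - k - 4, by omega⟩
  have h := dd_sub k j
  have hpos := R371DD.del_pos (i := k + 2) (j := j + 2) (by omega) (by omega)
  have hf : (0 : ℝ) < ((k + j + 4).factorial : ℝ) := by positivity
  have e : k + 2 + 1 = k + 3 := by omega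
  rw [e]
  constructor
  · intro he
    rw [he.neg_one_pow, one_mul] at hpos
    have h4 := mul_pos hf hpos
    rw [← h] at h4
    have h5 : (dd {k + 3} (k + j + 4) : ℝ) < dd {k + 2} (k + j + 4) := by linarith
    exact_mod_cast h5
  · intro ho
    rw [ho.neg_one_pow, neg_one_mul, neg_pos] at hpos
    have h4 := mul_neg_of_pos_of_neg hf hpos
    rw [← h] at h4
    have h5 : (dd {k + 2} (k + j + 4) : ℝ) < dd {k + 3} (k + j + 4) := by linarith
    exact_mod_cast h5

end Pool.Agent.Results.MP_452684_co.Alternation
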